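import Pool.Agent.H27.DelG

namespace Pool.Agent.Results.MP_6f4751_nt.Divisible
open Finset Pool.Agent.H27.DelA Pool.Agent.H27.DelC Pool.Agent.H27.DelG

/-- `R_{n,r}` -/
def R (n r : ℕ) : ℚ := ∑ k ∈ range (n + 1),
  ((n + k).choose (2 * k) : ℚ) * ((2 * k).choose k : ℚ) * (1 / (2 * (k : ℚ) - 2 * r - 1))

/-- `S_{n,r}` -/
def S (n r : ℕ) : ℚ := ∑ k ∈ range n, (2 * (k : ℚ) + 1) * R k r ^ 2

theorem R_eq (l r M : ℕ) (h : l < M) :
    R l r = ∑ i ∈ range M, (phi i l : ℚ) / (2 * i - (2 * (r : ℤ) + 1)) := by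
  have e : R l r = ∑ i ∈ range (l + 1), (phi i l : ℚ) / (2 * i - (2 * (r : ℤ) + 1)) := by
    refine Finset.sum_congr rfl fun i _ => ?_
    rw [phi_eq]; push_cast
    rw [show (2 * (i : ℚ) - (2 * r + 1)) = 2 * i - 2 * r - 1 by ring]; ring
  rw [e]
  refine Finset.sum_subset (range_subset_range.mpr h) fun i _ hi => ?_
  rw [phi_zero (by simpa using hi)]; simp

theorem S_eq (m r : ℕ) : S (m + 1) r = (m + 1) * TT r r m := by
  unfold S TT
  have e : ∀ l ∈ range (m + 1), (2 * (l : ℚ) + 1) * R l r ^ 2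
      = ∑ i ∈ range (m + 1), ∑ j ∈ range (m + 1), (2 * (l : ℚ) + 1) * (phi i l * phi j l)
        / ((2 * i - (2 * (r : ℤ) + 1)) * (2 * j - (2 * (r : ℤ) + 1))) := by
    intro l hl
    rw [R_eq l r (m + 1) (mem_range.mp hl), pow_two, Finset.sum_mul_sum, Finset.mul_sum]
    refine Finset.sum_congr rfl fun i _ => ?_
    rw [Finset.mul_sum]
    exact Finset.sum_congr rfl fun j _ => by rw [div_mul_div_comm, ← mul_div_assoc]
  rw [Finset.sum_congr rfl e, Finset.sum_comm, Finset.mul_sum]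
  refine Finset.sum_congr rfl fun i _ => ?_
  rw [Finset.sum_comm, Finset.mul_sum]
  refine Finset.sum_congr rfl fun j _ => ?_
  rw [← mul_div_assoc, kr_mul, Finset.sum_div]

theorem R_int (l r : ℕ) : ∃ z : ℤ, (KO r : ℚ) * R l r = z := by
  rw [R_eq l r (l + 1) (by omega), Finset.mul_sum]
  refine int_sum _ _ fun i => ?_
  obtain ⟨z, hz⟩ := KO_int r i ((l + i).choose (2 * i) : ℤ)
  exact ⟨z, by rw [← hz, phi_eq]; push_cast; ring⟩

theorem S_int (n r : ℕ) : ∃ z : ℤ, (KO r : ℚ) ^ 2 * S n r = z := by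
  unfold S
  rw [Finset.mul_sum]
  refine int_sum _ _ fun l => ?_
  obtain ⟨z, hz⟩ := R_int l r
  exact ⟨(2 * l + 1) * z ^ 2, by push_cast; rw [← hz]; ring⟩

theorem result (r : ℕ) (_hr : 0 < r) : ∃ a : ℤ, a ≠ 0 ∧ ∀ n : ℕ, 0 < n →
    (∃ z : ℤ, (a : ℚ) * S n r / n = z) ∧ Nat.Coprime ((a : ℚ) * S n r / n).den n := by
  obtain ⟨c, hc, h⟩ := good_T r
  refine ⟨c * KO r ^ 2, mul_ne_zero hc (pow_ne_zero _ (KO_ne r)), fun n hn => ?_⟩
  obtain ⟨m, rfl⟩ : ∃ m, n = m + 1 := ⟨n - 1, by omega⟩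
  obtain ⟨e, z, ⟨d, hd⟩, hz⟩ := h m
  obtain ⟨w, hw⟩ := S_int (m + 1) r
  have key : ((c * KO r ^ 2 : ℤ) : ℚ) * S (m + 1) r / (m + 1 : ℕ)
      = ((KO r ^ 2 * z - d * w : ℤ) : ℚ) := by
    have hd' := congrArg (Int.cast : ℤ → ℚ) hd
    have hne : ((m : ℚ) + 1) ≠ 0 := by positivity
    push_cast at hd' ⊢
    rw [div_eq_iff hne, ← hw, ← hz, S_eq]
    linear_combination (-(KO r : ℚ) ^ 2 * (m + 1) * TT r r m) * hd'
  exact ⟨⟨_, key⟩, by rw [key, Rat.den_intCast]; exact Nat.coprime_one_left _⟩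

end Pool.Agent.Results.MP_6f4751_nt.Divisible
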